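import Pool.Agent.NH52.CI.Stm2

set_option autoImplicit false

/-! # Non-degenerate ideals -/

namespace Pool.Agent.NH52.ND

open MvPolynomial
open Pool.Agent.W426.SM (gord IsRay)

/-- **Non-degenerate ideals.** The ideal `(f_j)` is non-degenerate at the origin, with the Newton
polyhedron `P` of the monomials `x ^ (m_k)`; `gord m a` is the minimum of `⟨a, u⟩` for `u ∈ P`:

* `newton`: the exponents of the `f_j` are in `P`;
* `nondeg`: for every compact face of `P`, given by a weight vector `a` with positive entries, the
  initial forms of the `f_j`, their parts of degree `gord m a`, have no common zero in the torus;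
* `facet`: for every facet of `P`, compact or not, with the normal vector `a`, `gord m a > 0`, there are
  `n` algebraically independent products of an initial form of an `f_j` and of a polynomial in the
  coordinates with `a_i = 0`. (This is a consequence of the first two conditions, because the
  divisors of the facets are the Rees divisors of the integral closure of the ideal, which is the
  monomial ideal of `P`, and the normalization is finite; this is not formalised.)

Along every arc `x(t)` with the origin `0` and `x_i ≠ 0` for all `i`, with `u_i = ord x_i > 0`, the ideal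
`(f_j)` has the same order `gord m u` as the monomials `x ^ (m_k)`: the coefficients of `t ^ (gord m u)` in
the `f_j (x(t))` are the values of the initial forms at the leading coefficients of the `x_i(t)`. -/
structure IsNondeg {n r r' : ℕ} (f : Fin r → MvPolynomial (Fin n) ℂ) (m : Fin r' → Fin n → ℕ) :
    Prop where
  newton : ∀ (a : Fin n → ℕ) (j : Fin r), ∀ k < gord m a,
    weightedHomogeneousComponent a k (f j) = 0
  nondeg : ∀ a : Fin n → ℕ, (∀ i, 0 < a i) → ∀ p : Fin n → ℂ, (∀ i, p i ≠ 0) →
    ∃ j, eval p (weightedHomogeneousComponent a (gord m a) (f j)) ≠ 0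
  facet : ∀ a : Fin n → ℕ, IsRay m a → 0 < gord m a →
    ∃ (e : Fin n → Fin r) (h : Fin n → MvPolynomial (Fin n) ℂ),
      (∀ t, (h t).IsWeightedHomogeneous a 0) ∧
      (Matrix.of fun s t => pderiv s
        (h t * weightedHomogeneousComponent a (gord m a) (f (e t)))).det ≠ 0

/-- ND-1: monomials with perturbations in the Newton polyhedron, outside its compact faces and its
facets with `gord m a > 0` -/
def S_PER : Prop :=
  ∀ {n r : ℕ} (m : Fin r → Fin n → ℕ) (g : Fin r → MvPolynomial (Fin n) ℂ), 0 < r →
    (∀ (a : Fin n → ℕ) (j : Fin r), ∀ k < gord m a, weightedHomogeneousComponent a k (g j) = 0) →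
    (∀ a : Fin n → ℕ, ((∀ i, 0 < a i) ∨ (IsRay m a ∧ 0 < gord m a)) → ∀ j,
      weightedHomogeneousComponent a (gord m a) (g j) = 0) →
    IsNondeg (fun j => CI.mono m j + g j) m

/-- ND-2: products with a polynomial of weight `0` -/
def S_WMUL : Prop :=
  ∀ {n : ℕ} (a : Fin n → ℕ) (k : ℕ) (h f : MvPolynomial (Fin n) ℂ), h.IsWeightedHomogeneous a 0 →
    weightedHomogeneousComponent a k (h * f) = h * weightedHomogeneousComponent a k f

end Pool.Agent.NH52.ND
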