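import Pool.Agent.NH52.ND.Defs
import Pool.Agent.NH52.ND.Root
import Pool.Agent.NH52.CI.Iso
import Pool.Agent.NH52.CI.Mono

set_option autoImplicit false
set_option linter.unusedSectionVars false
set_option linter.unusedVariables false

/-! # The roots and the denominators for non-degenerate ideals -/

namespace Pool.Agent.NH52.ND

open MvPolynomial Pool.Agent.W574.MO Pool.Agent.W574.SM Pool.Agent.W574.LM Pool.Agent.W574.HS
  Pool.Agent.W574.RO Pool.Agent.W574.CN Pool.Agent.Y229 Pool.Agent.NH52.CI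
open Pool.Agent.W426.SM (gord ford IsRay face)

variable {M : Type} [CommRing M] {L : Mˣ}

theorem t_WMUL : S_WMUL := by
  classical
  intro n a k h f hh
  ext d
  rw [coeff_weightedHomogeneousComponent, coeff_mul, coeff_mul]
  have h1 : ∀ x ∈ Finset.HasAntidiagonal.antidiagonal d, coeff x.1 h * coeff x.2 (weightedHomogeneousComponent a k f)
      = if Finsupp.weight a d = k then coeff x.1 h * coeff x.2 f else 0 := by
    intro x hx
    rw [coeff_weightedHomogeneousComponent]
    by_cases h0 : coeff x.1 h = 0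
    · rw [h0, zero_mul, zero_mul, ite_self]
    · have hw : Finsupp.weight a x.1 = 0 := hh h0
      have hd : Finsupp.weight a d = Finsupp.weight a x.2 := by
        rw [← Finset.HasAntidiagonal.mem_antidiagonal.1 hx, map_add, hw, zero_add]
      rw [hd]
      by_cases hk : Finsupp.weight a x.2 = k
      · rw [if_pos hk, if_pos hk]
      · rw [if_neg hk, if_neg hk, mul_zero]
  rw [Finset.sum_congr rfl h1]
  by_cases hk : Finsupp.weight a d = k
  · rw [if_pos hk]
    exact Finset.sum_congr rfl fun x _ => (if_pos hk).symm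
  · rw [if_neg hk]
    exact (Finset.sum_eq_zero fun x _ => if_neg hk).symm

theorem whc_rename {n : ℕ} (π : Equiv.Perm (Fin n)) (a : Fin n → ℕ) (k : ℕ)
    (q : MvPolynomial (Fin n) ℂ) :
    weightedHomogeneousComponent (fun i => a (π.symm i)) k (rename π q) =
      rename π (weightedHomogeneousComponent a k q) := by
  classical
  ext d
  obtain ⟨d', rfl⟩ : ∃ d', d = Finsupp.mapDomain π d' :=
    ⟨Finsupp.mapDomain π.symm d, by
      rw [← Finsupp.mapDomain_comp, Equiv.self_comp_symm, Finsupp.mapDomain_id]⟩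
  have hw : Finsupp.weight (fun i => a (π.symm i)) (Finsupp.mapDomain π d') = Finsupp.weight a d' := by
    rw [Finsupp.weight_apply, Finsupp.weight_apply, Finsupp.sum_mapDomain_index]
    · simp only [Equiv.symm_apply_apply]
    · intro i
      rw [zero_smul]
    · intro i x y
      rw [add_smul]
  rw [coeff_weightedHomogeneousComponent, coeff_rename_mapDomain _ π.injective,
    coeff_rename_mapDomain _ π.injective, coeff_weightedHomogeneousComponent, hw]

/-- **The roots of the facets.** -/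
theorem nd_sf (hDROP : S_DROP) (hADD : S_ADD) (hUNI : S_UNI) (hSTR : S_STR) (hLIN : S_LIN)
    (hFOR : S_FOR) (hALG : S_ALG) {n r : ℕ} (f : Fin r → MvPolynomial (Fin n) ℂ) (a : Fin n → ℕ)
    (N : ℕ) (ha : a ≠ 0) (hN : 0 < N)
    (hf : ∀ j, ∀ k < N, weightedHomogeneousComponent a k (f j) = 0)
    (e : Fin n → Fin r) (h : Fin n → MvPolynomial (Fin n) ℂ)
    (hh : ∀ t, (h t).IsWeightedHomogeneous a 0)
    (hdet : (Matrix.of fun s t => pderiv s
        (h t * weightedHomogeneousComponent a N (f (e t)))).det ≠ 0) :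
    SF f 0 (-((∑ i, a i : ℕ) : ℂ) / (N : ℕ)) := by
  classical
  obtain ⟨i1, hi1⟩ : ∃ i, a i ≠ 0 := by
    by_contra hc
    push Not at hc
    exact ha (funext hc)
  obtain ⟨n', rfl⟩ : ∃ n', n = n' + 1 := ⟨n - 1, by have := i1.pos; omega⟩
  set π : Equiv.Perm (Fin (n' + 1)) := Equiv.swap 0 i1 with hπ
  have hπs : ∀ i, π.symm i = π i := fun i => by rw [hπ, Equiv.symm_swap]
  set f1 : Fin (r + (n' + 1)) → MvPolynomial (Fin (n' + 1)) ℂ :=
    Fin.append f (fun t => h t * f (e t)) with hf1
  set f2 : Fin (r + (n' + 1)) → MvPolynomial (Fin (n' + 1)) ℂ := fun j => rename π (f1 j) with hf2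
  set v : Fin (n' + 1) → ℕ := fun i => a (π.symm i) with hv
  have hv0 : 1 ≤ v 0 := by
    rw [hv]
    simp only
    rw [hπs, hπ, Equiv.swap_apply_left]
    omega
  have hsum : ∑ i, v i = ∑ i, a i := Equiv.sum_comp π.symm a
  have hf1w : ∀ j, ∀ k < N, weightedHomogeneousComponent a k (f1 j) = 0 := by
    intro j k hk
    refine Fin.addCases (fun j => ?_) (fun t => ?_) j
    · rw [hf1, Fin.append_left]
      exact hf j k hk
    · rw [hf1, Fin.append_right, t_WMUL a k _ _ (hh t), hf _ k hk, mul_zero]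
  have hne : ∃ j, f j ≠ 0 := by
    by_contra hc
    push Not at hc
    apply hdet
    have h0 : (0 : Fin (n' + 1)) = 0 := rfl
    refine Matrix.det_eq_zero_of_column_eq_zero 0 fun s => ?_
    rw [Matrix.of_apply, hc, map_zero, mul_zero, map_zero]
  have hne1 : ∃ j, f1 j ≠ 0 := by
    obtain ⟨j, hj⟩ := hne
    exact ⟨Fin.castAdd _ j, by rw [hf1, Fin.append_left]; exact hj⟩
  have hne2 : ∃ j, f2 j ≠ 0 := by
    obtain ⟨j, hj⟩ := hne1
    refine ⟨j, ?_⟩
    rw [hf2]
    simp only
    rw [Ne, map_eq_zero_iff _ (rename_injective _ π.injective)]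
    exact hj
  have hdet2 : (Matrix.of fun s t => pderiv s
      (weightedHomogeneousComponent v N (f2 (Fin.natAdd r t)))).det ≠ 0 := by
    have hm : (Matrix.of fun s t => pderiv s
        (weightedHomogeneousComponent v N (f2 (Fin.natAdd r t)))) =
        ((rename π : MvPolynomial (Fin (n' + 1)) ℂ →ₐ[ℂ] _).toRingHom.mapMatrix
          (Matrix.of fun s t => pderiv s
            (h t * weightedHomogeneousComponent a N (f (e t))))).submatrix π.symm id := by
      ext1 s t
      rw [Matrix.of_apply, Matrix.submatrix_apply, RingHom.mapMatrix_apply, Matrix.map_apply,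
        Matrix.of_apply, hf2, hv]
      simp only
      rw [whc_rename, hf1, Fin.append_right, t_WMUL a N _ _ (hh t)]
      have h1 := pderiv_rename π.injective (π.symm s)
        (h t * weightedHomogeneousComponent a N (f (e t)))
      rw [Equiv.apply_symm_apply] at h1
      exact h1
    rw [hm, Matrix.det_permute, ← RingHom.map_det]
    refine mul_ne_zero ?_ ?_
    · rcases Int.units_eq_one_or (Equiv.Perm.sign π.symm) with h | h <;> rw [h] <;> simp
    · intro h0
      exact hdet ((map_eq_zero_iff _ (rename_injective _ π.injective)).1 h0)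
  have hS2 : SF f2 0 (-((∑ i, a i : ℕ) : ℂ) / (N : ℕ)) := by
    refine sf_of_local f2 0 _ (fun H b hb hH => ?_) (exists_fe f2 hne2)
    rw [MvPolynomial.eval_zero] at hH
    rw [← hsum]
    refine nd_root f2 v hv0 N hN (fun j k hk => ?_) b H hb hH (Fin.natAdd r) hdet2
    rw [hf2, hv]
    simp only
    rw [whc_rename, hf1w j k hk, map_zero]
  have hS1 : SF f1 0 (-((∑ i, a i : ℕ) : ℂ) / (N : ℕ)) := by
    refine sf_equiv π (Equiv.refl _) f2 f1 (fun j => ?_) 0 _ hS2
    rw [hf2]
    simp only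
    rw [rename_rename]
    have : (⇑π ∘ ⇑π) = id := by
      funext i
      rw [hπ]
      exact Equiv.swap_apply_self 0 i1 i
    rw [this, rename_id]
    rfl
  refine sf_iso hDROP hADD hUNI hSTR hLIN hFOR hALG f1 f (fun i => MvPowerSeries.X i) ?_
    (fun i => MvPowerSeries.constantCoeff_X i) ?_ hne1 _ hS1
  · rw [Pool.Agent.Y229.GL.IsCoord]
    have h1 : (Matrix.of fun i j => MvPowerSeries.coeff (Finsupp.single j 1)
        (MvPowerSeries.X i : MvPowerSeries (Fin (n' + 1)) ℂ)) = 1 := by
      ext i j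
      rw [Matrix.of_apply, MvPowerSeries.coeff_X, Matrix.one_apply]
      by_cases hij : i = j
      · rw [if_pos hij, hij, if_pos rfl]
      · rw [if_neg hij, if_neg]
        intro h2
        exact hij ((Finsupp.single_left_injective one_ne_zero) h2).symm
    rw [h1, Matrix.det_one]
    exact one_ne_zero
  · have hid : ∀ q : MvPowerSeries (Fin (n' + 1)) ℂ,
        MvPowerSeries.subst (fun i => (MvPowerSeries.X i : MvPowerSeries (Fin (n' + 1)) ℂ)) q = q :=
      fun q => congrFun (MvPowerSeries.subst_self (σ := Fin (n' + 1)) (R := ℂ)) q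
    simp only [hid]
    apply le_antisymm
    · rw [Ideal.span_le]
      rintro _ ⟨j, rfl⟩
      refine Fin.addCases (fun j => ?_) (fun t => ?_) j
      · simp only
        rw [hf1, Fin.append_left]
        exact Ideal.subset_span ⟨j, rfl⟩
      · simp only
        rw [hf1, Fin.append_right, MvPolynomial.coe_mul]
        exact Ideal.mul_mem_left _ _ (Ideal.subset_span ⟨e t, rfl⟩)
    · rw [Ideal.span_le]
      rintro _ ⟨j, rfl⟩
      refine Ideal.subset_span ⟨Fin.castAdd _ j, ?_⟩
      simp only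
      rw [hf1, Fin.append_left]

/-- **Non-degenerate ideals.** -/
theorem nd_main (hDROP : S_DROP) (hADD : S_ADD) (hUNI : S_UNI) (hSTR : S_STR) (hLIN : S_LIN)
    (hFOR : S_FOR) (hALG : S_ALG) (hDEN : S_DEN) {n r r' : ℕ} (hr' : 0 < r')
    (f : Fin r → MvPolynomial (Fin n) ℂ) (m : Fin r' → Fin n → ℕ) (h : IsNondeg f m) :
    tail 1 (PowerSeries.mk fun e => mvol L m e - mvol L m (e + 1)) ∈ DenRing L (KS f 0) := by
  rw [tail_mono]
  refine denRing_mono (fun N k hN hk h1 => ?_) (hDEN L m hr')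
  obtain ⟨a, ha, rfl, rfl⟩ := h1
  obtain ⟨e, g, hg, hdet⟩ := h.facet a ha hN
  exact nd_sf hDROP hADD hUNI hSTR hLIN hFOR hALG f a _ ha.1 hN (h.newton a) e g hg hdet

theorem nd_ideal (hDROP : S_DROP) (hADD : S_ADD) (hUNI : S_UNI) (hSTR : S_STR) (hLIN : S_LIN)
    (hFOR : S_FOR) (hALG : S_ALG) (hDEN : S_DEN) {n r r' : ℕ} (hr' : 0 < r')
    (f : Fin r → MvPolynomial (Fin n) ℂ) (m : Fin r' → Fin n → ℕ) (h : IsNondeg f m) (c : M) :
    PowerSeries.C c * PowerSeries.mk (fun e => mvol L m e - mvol L m (e + 1)) ∈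
      DenRing L (fun a k => ∀ b : Polynomial ℂ, IsLocalBI f b → b.eval (-(k : ℂ) / a) = 0) :=
  (DenRing L _).mul_mem (C_mem _) (denRing_mono (fun a n _ _ h b hb => SF.localBI h b hb)
    (mem_of_tail (nd_main (L := L) hDROP hADD hUNI hSTR hLIN hFOR hALG hDEN hr' f m h)))

theorem nd_facet (hDROP : S_DROP) (hADD : S_ADD) (hUNI : S_UNI) (hSTR : S_STR) (hLIN : S_LIN)
    (hFOR : S_FOR) (hALG : S_ALG) {n r r' : ℕ}
    (f : Fin r → MvPolynomial (Fin n) ℂ) (m : Fin r' → Fin n → ℕ) (h : IsNondeg f m)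
    (a : Fin n → ℕ) (ha : IsRay m a) (hN : 0 < gord m a) (b : Polynomial ℂ) (hb : IsLocalBI f b) :
    b.eval (-((∑ i, a i : ℕ) : ℂ) / (gord m a : ℕ)) = 0 := by
  obtain ⟨e, g, hg, hdet⟩ := h.facet a ha hN
  exact SF.localBI (nd_sf hDROP hADD hUNI hSTR hLIN hFOR hALG f a _ ha.1 hN (h.newton a) e g hg
    hdet) b hb

end Pool.Agent.NH52.ND
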