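import Pool.Agent.NH52.ND.Defs

set_option autoImplicit false

/-! # ND-1: perturbed monomial ideals are non-degenerate -/

namespace Pool.Agent.NH52.ND

open MvPolynomial
open Pool.Agent.W426.SM (gord IsRay face)

variable {n r : ℕ}

theorem per_gord_le (m : Fin r → Fin n → ℕ) (a : Fin n → ℕ) (j : Fin r) :
    gord m a ≤ ∑ i, a i * m j i := by
  unfold gord
  exact ciInf_le (OrderBot.bddBelow _) j

theorem per_exists_face (hr : 0 < r) (m : Fin r → Fin n → ℕ) (a : Fin n → ℕ) :
    ∃ k, face m a k := by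
  have : Nonempty (Fin r) := ⟨⟨0, hr⟩⟩
  have h := Nat.sInf_mem (Set.range_nonempty fun j : Fin r => ∑ i, a i * m j i)
  obtain ⟨k, hk⟩ := h
  exact ⟨k, hk⟩

/-- the exponent vector as a finitely supported function -/
noncomputable def per_fs (v : Fin n → ℕ) : Fin n →₀ ℕ := Finsupp.equivFunOnFinite.symm v

theorem per_fs_apply (v : Fin n → ℕ) (i : Fin n) : per_fs v i = v i := rfl

theorem per_mono_eq (m : Fin r → Fin n → ℕ) (j : Fin r) :
    CI.mono m j = monomial (per_fs (m j)) 1 := by
  unfold CI.mono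
  rw [MvPolynomial.monomial_eq, C_1, one_mul, Finsupp.prod_fintype _ _ (fun i => pow_zero _)]
  rfl

theorem per_weight (a v : Fin n → ℕ) :
    Finsupp.weight a (per_fs v) = ∑ i, a i * v i := by
  rw [Finsupp.weight_apply, Finsupp.sum_fintype _ _ (fun i => by simp)]
  refine Finset.sum_congr rfl fun i _ => ?_
  rw [smul_eq_mul, mul_comm]
  rfl

theorem per_isWH (a : Fin n → ℕ) (m : Fin r → Fin n → ℕ) (j : Fin r) :
    (CI.mono m j).IsWeightedHomogeneous a (∑ i, a i * m j i) := by
  rw [per_mono_eq]
  exact isWeightedHomogeneous_monomial _ _ _ (per_weight a (m j))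

theorem per_whc_ne (a : Fin n → ℕ) (m : Fin r → Fin n → ℕ) (j : Fin r) {k : ℕ}
    (h : k ≠ ∑ i, a i * m j i) : weightedHomogeneousComponent a k (CI.mono m j) = 0 :=
  (per_isWH a m j).weightedHomogeneousComponent_ne k h

theorem per_whc_same (a : Fin n → ℕ) (m : Fin r → Fin n → ℕ) (j : Fin r) {k : ℕ}
    (h : ∑ i, a i * m j i = k) : weightedHomogeneousComponent a k (CI.mono m j) = CI.mono m j := by
  have h1 := per_isWH a m j
  rw [h] at h1
  exact h1.weightedHomogeneousComponent_same

/-- the Jacobian determinant of monomials with linearly independent exponents -/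
theorem per_det (W : Fin n → Fin n → ℕ) (hW : (Matrix.of fun s t => (W t s : ℚ)).det ≠ 0) :
    (Matrix.of fun s t => pderiv s (monomial (per_fs (W t)) (1 : ℂ))).det ≠ 0 := by
  intro h0
  have h1 := Matrix.det_mul_column (fun s : Fin n => (X s : MvPolynomial (Fin n) ℂ))
    (Matrix.of fun s t => pderiv s (monomial (per_fs (W t)) (1 : ℂ)))
  rw [h0, mul_zero] at h1
  have h2 : (Matrix.of fun s t => (X s : MvPolynomial (Fin n) ℂ) *
      (Matrix.of fun s t => pderiv s (monomial (per_fs (W t)) (1 : ℂ))) s t) =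
      Matrix.of fun s t => monomial (per_fs (W t)) (1 : ℂ) *
        (C.mapMatrix (Matrix.of fun s t => ((W t s : ℕ) : ℂ))) s t := by
    ext1 s t
    rw [Matrix.of_apply, Matrix.of_apply, Matrix.of_apply, X_mul_pderiv_monomial, per_fs_apply,
      RingHom.mapMatrix_apply, Matrix.map_apply, Matrix.of_apply, nsmul_eq_mul, mul_comm,
      ← map_natCast (C (R := ℂ) (σ := Fin n))]
  rw [h2, Matrix.det_mul_row, ← RingHom.map_det] at h1
  rcases mul_eq_zero.1 h1 with h3 | h3
  · obtain ⟨t, -, ht⟩ := Finset.prod_eq_zero_iff.1 h3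
    exact one_ne_zero (monomial_eq_zero.1 ht)
  · rw [map_eq_zero_iff _ (C_injective _ _)] at h3
    have h4 : (Matrix.of fun s t => ((W t s : ℕ) : ℂ)) =
        (algebraMap ℚ ℂ).mapMatrix (Matrix.of fun s t => (W t s : ℚ)) := by
      ext1 s t
      rw [RingHom.mapMatrix_apply, Matrix.map_apply, Matrix.of_apply, Matrix.of_apply, map_natCast]
    rw [h4, ← RingHom.map_det, map_eq_zero_iff _ (algebraMap ℚ ℂ).injective] at h3
    exact hW h3

/-- the index set of the vectors -/
abbrev PerIdx (m : Fin r → Fin n → ℕ) (a : Fin n → ℕ) : Type :=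
  {k : Fin r // face m a k} ⊕ {i : Fin n // a i = 0}

/-- the exponents -/
def perW (m : Fin r → Fin n → ℕ) (a : Fin n → ℕ) (k0 : Fin r) : PerIdx m a → Fin n → ℕ
  | Sum.inl k => m k.1
  | Sum.inr i => m k0 + Pi.single i.1 1

theorem per_span (m : Fin r → Fin n → ℕ) (a : Fin n → ℕ) (k0 : Fin r) (hk0 : face m a k0)
    (hray : IsRay m a) (hpos : 0 < gord m a) :
    Submodule.span ℚ (Set.range fun x : PerIdx m a => fun i => (perW m a k0 x i : ℚ)) = ⊤ := by
  by_contra hne
  obtain ⟨f, hf0, hf⟩ := Submodule.exists_le_ker_of_lt_top _ (lt_top_iff_ne_top.2 hne)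
  have hfx : ∀ x : Fin n → ℚ, f x = ∑ i, f (Pi.single i 1) * x i := by
    intro x
    conv_lhs => rw [← Finset.univ_sum_single x]
    rw [map_sum]
    refine Finset.sum_congr rfl fun i _ => ?_
    have h1 : (Pi.single i (x i) : Fin n → ℚ) = x i • Pi.single i 1 := by
      rw [← Pi.single_smul, smul_eq_mul, mul_one]
    rw [h1, map_smul, smul_eq_mul, mul_comm]
  have hv : ∀ x : PerIdx m a, ∑ i, f (Pi.single i 1) * (perW m a k0 x i : ℚ) = 0 := by
    intro x
    rw [← hfx fun i => (perW m a k0 x i : ℚ)]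
    exact hf (Submodule.subset_span ⟨x, rfl⟩)
  have hface : ∀ k, face m a k → ∑ i, f (Pi.single i 1) * (m k i : ℚ) = 0 := fun k hk =>
    hv (Sum.inl ⟨k, hk⟩)
  have hzero : ∀ i, a i = 0 → f (Pi.single i 1) = 0 := by
    intro i hi
    have h1 := hv (Sum.inr ⟨i, hi⟩)
    have h2 : ∀ s : Fin n, (perW m a k0 (Sum.inr ⟨i, hi⟩) s : ℚ) =
        (m k0 s : ℚ) + if s = i then 1 else 0 := by
      intro s
      show ((m k0 s + (Pi.single i 1 : Fin n → ℕ) s : ℕ) : ℚ) = _
      rw [Pi.single_apply]
      push_cast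
      rfl
    simp only [h2, mul_add, Finset.sum_add_distrib, hface k0 hk0, zero_add, mul_ite, mul_one,
      mul_zero, Finset.sum_ite_eq', Finset.mem_univ, if_true] at h1
    exact h1
  obtain ⟨c, hc⟩ := hray.2 (fun i => f (Pi.single i 1)) hzero fun j j' hj hj' => by
    rw [hface j hj, hface j' hj']
  have h5 := hface k0 hk0
  have h6 : ∑ i, f (Pi.single i 1) * (m k0 i : ℚ) = c * (gord m a : ℚ) := by
    rw [← hk0]
    push_cast
    rw [Finset.mul_sum]
    refine Finset.sum_congr rfl fun i _ => ?_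
    rw [hc i, mul_assoc]
  rw [h6] at h5
  have hc0 : c = 0 := by
    rcases mul_eq_zero.1 h5 with h | h
    · exact h
    · exact absurd (Nat.cast_eq_zero.1 h) hpos.ne'
  apply hf0
  refine LinearMap.ext fun x => ?_
  rw [hfx x, LinearMap.zero_apply]
  refine Finset.sum_eq_zero fun i _ => ?_
  rw [hc i, hc0, zero_mul, zero_mul]

theorem per_choose (m : Fin r → Fin n → ℕ) (a : Fin n → ℕ) (k0 : Fin r) (hk0 : face m a k0)
    (hray : IsRay m a) (hpos : 0 < gord m a) :
    ∃ w : Fin n → PerIdx m a, (Matrix.of fun s t => (perW m a k0 (w t) s : ℚ)).det ≠ 0 := by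
  obtain ⟨κ, b, -, hspan, hli⟩ := exists_linearIndependent' ℚ
    (fun x : PerIdx m a => fun i => (perW m a k0 x i : ℚ))
  rw [per_span m a k0 hk0 hray hpos] at hspan
  have hfin : Finite κ := hli.finite
  have := Fintype.ofFinite κ
  let B := Module.Basis.mk hli hspan.ge
  have hcard : Fintype.card κ = n := by
    rw [← Module.finrank_eq_card_basis B, Module.finrank_fin_fun]
  let e : Fin n ≃ κ := (Fintype.equivFinOfCardEq hcard).symm
  refine ⟨fun t => b (e t), ?_⟩
  have h1 : LinearIndependent ℚ fun t : Fin n => fun i => (perW m a k0 (b (e t)) i : ℚ) :=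
    hli.comp e e.injective
  have h2 := (Matrix.linearIndependent_rows_iff_isUnit (K := ℚ)
    (A := Matrix.of fun t s => (perW m a k0 (b (e t)) s : ℚ))).1 h1
  rw [Matrix.isUnit_iff_isUnit_det] at h2
  have h3 : (Matrix.of fun s t => (perW m a k0 (b (e t)) s : ℚ)) =
      (Matrix.of fun t s => (perW m a k0 (b (e t)) s : ℚ)).transpose := rfl
  rw [h3, Matrix.det_transpose]
  exact h2.ne_zero

theorem t_PER : S_PER := by
  intro n r m g hr hg1 hg2
  refine ⟨fun a j k hk => ?_, fun a ha p hp => ?_, fun a hray hpos => ?_⟩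
  · show weightedHomogeneousComponent a k (CI.mono m j + g j) = 0
    rw [map_add, hg1 a j k hk, per_whc_ne a m j (ne_of_lt (lt_of_lt_of_le hk (per_gord_le m a j))),
      add_zero]
  · obtain ⟨k0, hk0⟩ := per_exists_face hr m a
    refine ⟨k0, ?_⟩
    show eval p (weightedHomogeneousComponent a (gord m a) (CI.mono m k0 + g k0)) ≠ 0
    rw [map_add, hg2 a (Or.inl ha) k0, per_whc_same a m k0 hk0, add_zero]
    unfold CI.mono
    rw [map_prod]
    refine Finset.prod_ne_zero_iff.2 fun i _ => ?_
    rw [map_pow, eval_X]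
    exact pow_ne_zero _ (hp i)
  · obtain ⟨k0, hk0⟩ := per_exists_face hr m a
    obtain ⟨w, hw⟩ := per_choose m a k0 hk0 hray hpos
    have hwhc : ∀ k, face m a k →
        weightedHomogeneousComponent a (gord m a) (CI.mono m k + g k) = CI.mono m k := by
      intro k hk
      rw [map_add, hg2 a (Or.inr ⟨hray, hpos⟩) k, per_whc_same a m k hk, add_zero]
    refine ⟨fun t => Sum.elim (fun k => k.1) (fun _ => k0) (w t),
      fun t => Sum.elim (fun _ => 1) (fun i => X i.1) (w t), fun t => ?_, ?_⟩
    · have h0 : ∀ x : PerIdx m a, (Sum.elim (fun _ => 1) (fun i => X i.1) x :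
          MvPolynomial (Fin n) ℂ).IsWeightedHomogeneous a 0 := by
        rintro (k | i)
        · exact isWeightedHomogeneous_one ℂ a
        · have h1 := isWeightedHomogeneous_X ℂ a i.1
          rw [i.2] at h1
          exact h1
      exact h0 (w t)
    · have h1 : ∀ t : Fin n, (Sum.elim (fun _ => 1) (fun i => X i.1) (w t) :
          MvPolynomial (Fin n) ℂ) * weightedHomogeneousComponent a (gord m a)
            (CI.mono m (Sum.elim (fun k => k.1) (fun _ => k0) (w t)) +
              g (Sum.elim (fun k => k.1) (fun _ => k0) (w t))) =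
          monomial (per_fs (perW m a k0 (w t))) 1 := by
        intro t
        rcases w t with k | i
        · show (1 : MvPolynomial (Fin n) ℂ) * weightedHomogeneousComponent a (gord m a)
            (CI.mono m k.1 + g k.1) = monomial (per_fs (m k.1)) 1
          rw [one_mul, hwhc k.1 k.2, per_mono_eq]
        · show (X i.1 : MvPolynomial (Fin n) ℂ) * weightedHomogeneousComponent a (gord m a)
            (CI.mono m k0 + g k0) = monomial (per_fs (m k0 + Pi.single i.1 1)) 1
          have h4 : Finsupp.single i.1 1 + per_fs (m k0) = per_fs (m k0 + Pi.single i.1 1) := by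
            ext s
            rw [Finsupp.add_apply, per_fs_apply, per_fs_apply, Pi.add_apply, add_comm,
              Finsupp.single_apply, Pi.single_apply]
            simp only [eq_comm]
          rw [hwhc k0 hk0, per_mono_eq, X, monomial_mul, one_mul, h4]
      have h2 := per_det (fun t => perW m a k0 (w t)) hw
      have h3 : (Matrix.of fun s t => pderiv s
          ((Sum.elim (fun _ => 1) (fun i => X i.1) (w t) : MvPolynomial (Fin n) ℂ) *
            weightedHomogeneousComponent a (gord m a)
            (CI.mono m (Sum.elim (fun k => k.1) (fun _ => k0) (w t)) +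
              g (Sum.elim (fun k => k.1) (fun _ => k0) (w t))))) =
          Matrix.of fun s t => pderiv s (monomial (per_fs (perW m a k0 (w t))) (1 : ℂ)) := by
        ext1 s t
        rw [Matrix.of_apply, Matrix.of_apply, h1 t]
      exact h3 ▸ h2

end Pool.Agent.NH52.ND
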